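import Mathlib
import Pool.Agent.H51.RotA

set_option autoImplicit false

namespace Pool.Agent.Results.MP_7c82b6_nt.Limit

open Finset Filter Topology Pool.Agent.H51.RotA

/-- value of the finite simple continued fraction with the given quotients -/
def cfVal : List ℕ → ℚ
  | [] => 0
  | [c] => c
  | c :: d :: l => c + 1 / cfVal (d :: l)

/-- `c` is the normalised expansion of `x`: positive quotients, last quotient `> 1` -/
def IsCF (x : ℚ) (c : List ℕ) : Prop :=
  ∃ h : c ≠ [], (∀ a ∈ c, 0 < a) ∧ 1 < c.getLast h ∧ cfVal c = x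

def M (p : ℕ) : Set ℕ :=
  {n | 0 < n ∧ n < p ∧ ∃ c, IsCF ((p : ℚ) / n) c ∧ jacobiSym n p = (-1) ^ c.length}

def Mbar (p : ℕ) : Set ℕ :=
  {n | 0 < n ∧ n < p ∧ ∃ c, IsCF ((p : ℚ) / n) c ∧ jacobiSym n p = (-1) ^ (c.length + 1)}

noncomputable def N (p : ℕ) : ℕ := (M p).ncard

noncomputable def Nbar (p : ℕ) : ℕ := (Mbar p).ncard

lemma cf_struct (c : List ℕ) : ∀ x, IsCF x c → ∃ P Q P' Q' : ℕ, x = (P : ℚ) / Q ∧ 0 < Q ∧ 0 < P' ∧
    2 * P' ≤ P ∧ 2 * Q' ≤ Q ∧ (P : ℤ) * Q' - P' * Q = (-1) ^ c.length := by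
  induction c with
  | nil => rintro x ⟨h, -⟩; exact absurd rfl h
  | cons a l ih =>
    rintro x ⟨h, hpos, hlast, rfl⟩
    cases l with
    | nil =>
      refine ⟨a, 1, 1, 0, by simp [cfVal], by simp, by simp, ?_, by simp, by simp⟩
      simp at hlast; omega
    | cons d l =>
      obtain ⟨P, Q, P', Q', h1, h2, h3, h4, h5, h6⟩ := ih _ ⟨by simp,
        fun b hb => hpos b (List.mem_cons_of_mem _ hb), by simpa using hlast, rfl⟩
      have ha : 0 < a := hpos a (by simp)
      have hP : 0 < P := by omega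
      refine ⟨a * P + Q, P, a * P' + Q', P', ?_, hP, by positivity, by nlinarith, h4, ?_⟩
      · rw [cfVal, h1]
        have : (P : ℚ) ≠ 0 := by positivity
        push_cast
        field_simp
      · rw [List.length_cons, pow_succ, ← h6]
        push_cast
        ring

lemma cf_exists (n : ℕ) : ∀ p : ℕ, 0 < n → n < p → ∃ c, IsCF ((p : ℚ) / n) c := by
  induction n using Nat.strong_induction_on with
  | _ n ih =>
    intro p hn hp
    have hd := Nat.div_add_mod p n
    have hm := Nat.mod_lt p hn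
    have hq : 0 < p / n := Nat.div_pos hp.le hn
    have hn' : (n : ℚ) ≠ 0 := by positivity
    have hd' : (p : ℚ) = n * (p / n : ℕ) + (p % n : ℕ) := by exact_mod_cast hd.symm
    rcases Nat.eq_zero_or_pos (p % n) with h0 | h0
    · refine ⟨[p / n], by simp, by simpa using hq, ?_, ?_⟩
      · simp only [List.getLast_singleton]
        by_contra hc
        have : p / n = 1 := by omega
        rw [this] at hd; omega
      · rw [cfVal, eq_div_iff hn', hd', h0]; simp [mul_comm]
    · obtain ⟨c, hc, h1, h2, h3⟩ := ih (p % n) hm n h0 hm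
      obtain ⟨d, l, rfl⟩ := List.exists_cons_of_ne_nil hc
      refine ⟨(p / n) :: d :: l, by simp, ?_, by simpa using h2, ?_⟩
      · intro a ha
        rcases List.mem_cons.1 ha with rfl | ha
        · exact hq
        · exact h1 a ha
      · rw [cfVal, h3, eq_div_iff hn']
        have : ((p % n : ℕ) : ℚ) ≠ 0 := by positivity
        generalize ((p % n : ℕ) : ℚ) = r at *
        generalize ((p / n : ℕ) : ℚ) = q at *
        rw [hd']
        field_simp

lemma sign_eq {p : ℕ} [NeZero p] (ho : p % 2 = 1) (n : ℕ) (hn : 0 < n)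
    (hc : Nat.Coprime n p) (c : List ℕ) (h : IsCF ((p : ℚ) / n) c) :
    s ((n : ZMod p)⁻¹) = (-1) ^ (c.length + 1) := by
  obtain ⟨P, Q, P', Q', h1, h2, h3, h4, h5, h6⟩ := cf_struct c _ h
  have hcop : IsCoprime (P : ℤ) (Q : ℤ) := by
    refine ⟨(-1) ^ c.length * Q', - ((-1) ^ c.length * P'), ?_⟩
    have : ((-1 : ℤ) ^ c.length) * (-1) ^ c.length = 1 := by rw [← mul_pow]; simp
    linear_combination this + (-1) ^ c.length * h6
  have hcop' : Nat.Coprime P Q := Nat.isCoprime_iff_coprime.1 hcop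
  have hcross : p * Q = P * n := by
    rw [div_eq_div_iff (by positivity) (by positivity)] at h1
    exact_mod_cast h1
  have hPp : P = p := by
    apply Nat.dvd_antisymm
    · exact hcop'.dvd_of_dvd_mul_right ⟨n, hcross⟩
    · exact hc.symm.dvd_of_dvd_mul_right ⟨Q, hcross.symm⟩
  subst hPp
  have hQ : Q = n := Nat.eq_of_mul_eq_mul_left (by omega) hcross
  subst hQ
  have h7 := congrArg (fun z : ℤ => (z : ZMod P)) h6
  simp only [Int.cast_sub, Int.cast_mul, Int.cast_natCast, ZMod.natCast_self, zero_mul, zero_sub,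
    Int.cast_pow, Int.cast_neg, Int.cast_one] at h7
  have hv : ((P' : ZMod P)).val = P' := ZMod.val_cast_of_lt (by omega)
  rcases Nat.even_or_odd c.length with he | he
  · rw [he.neg_one_pow] at h7
    rw [pow_succ, he.neg_one_pow]
    have : (Q : ZMod P)⁻¹ = - (P' : ZMod P) := ZMod.inv_eq_of_mul_eq_one _ _ _ (by
      rw [← h7]; ring)
    rw [this, s, ZMod.neg_val, if_neg]
    · simp
    · rw [if_neg, hv]
      · omega
      · intro h0; rw [h0, ZMod.val_zero] at hv; omega
  · rw [he.neg_one_pow] at h7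
    rw [pow_succ, he.neg_one_pow]
    have : (Q : ZMod P)⁻¹ = (P' : ZMod P) := ZMod.inv_eq_of_mul_eq_one _ _ _ (by
      rw [← neg_inj, ← h7]; ring)
    rw [this, s, hv, if_pos (by omega)]
    simp

def g {p : ℕ} (y : ZMod p) : ℤ := chi y * s y⁻¹

lemma set_eq {p : ℕ} [NeZero p] (hp : 1 < p) (ho : p % 2 = 1) (k : ℕ) :
    {n | 0 < n ∧ n < p ∧ ∃ c, IsCF ((p : ℚ) / n) c ∧ jacobiSym n p = (-1) ^ (c.length + k)} =
      ZMod.val '' {y : ZMod p | g y = (-1) ^ (k + 1)} := by
  have hsq : ∀ m : ℕ, ((-1 : ℤ) ^ m) * (-1) ^ m = 1 := by intro m; rw [← mul_pow]; simp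
  ext n
  constructor
  · rintro ⟨h0, h1, c, hc, hj⟩
    have hv : (n : ZMod p).val = n := ZMod.val_cast_of_lt h1
    refine ⟨n, ?_, hv⟩
    have hcop : Nat.Coprime n p := by
      by_contra hne
      have := (jacobiSym.eq_zero_iff_not_coprime (a := n) (b := p)).2 (by
        rw [Int.gcd_natCast_natCast]; exact hne)
      rw [this] at hj
      exact absurd hj.symm (pow_ne_zero _ (by norm_num))
    simp only [Set.mem_setOf_eq, g, chi, hv, hj, sign_eq ho n h0 hcop c hc]
    rw [pow_add, pow_add, pow_add]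
    linear_combination (-(-1) ^ k) * hsq c.length
  · rintro ⟨y, hy, rfl⟩
    simp only [Set.mem_setOf_eq, g] at hy
    have hu : IsUnit y := by
      by_contra hne
      rw [(chi_eq_zero y).2 hne, zero_mul] at hy
      exact absurd hy.symm (pow_ne_zero _ (by norm_num))
    have hcop : Nat.Coprime y.val p := by
      rw [← ZMod.isUnit_iff_coprime, ZMod.natCast_zmod_val]; exact hu
    have h0 : 0 < y.val := by
      rcases Nat.eq_zero_or_pos y.val with h | h
      · rw [h] at hcop; simp at hcop; omega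
      · exact h
    obtain ⟨c, hc⟩ := cf_exists y.val p h0 (ZMod.val_lt y)
    refine ⟨h0, ZMod.val_lt y, c, hc, ?_⟩
    have := sign_eq ho y.val h0 hcop c hc
    rw [ZMod.natCast_zmod_val] at this
    rw [this] at hy
    have h2 : chi y = (-1) ^ (k + 1) * (-1) ^ (c.length + 1) := by
      rw [← hy, mul_assoc, hsq, mul_one]
    unfold chi at h2
    rw [h2]; ring

lemma N_eq {p : ℕ} [NeZero p] (hp : 1 < p) (ho : p % 2 = 1) :
    (N p : ℤ) = ∑ y : ZMod p, (if g y = -1 then 1 else 0) ∧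
      (Nbar p : ℤ) = ∑ y : ZMod p, (if g y = 1 then 1 else 0) := by
  have h0 := set_eq hp ho 0
  have h1 := set_eq hp ho 1
  simp only [add_zero, zero_add, pow_one] at h0
  norm_num only at h1
  unfold N Nbar M Mbar
  rw [h0, h1, Set.ncard_image_of_injective _ (ZMod.val_injective p),
    Set.ncard_image_of_injective _ (ZMod.val_injective p)]
  simp only [Finset.sum_boole, Set.ncard_eq_toFinset_card']
  simp

lemma g_cases {p : ℕ} (y : ZMod p) : (g y = 0 ∨ g y = 1 ∨ g y = -1) ∧ g y ^ 2 = chi y ^ 2 := by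
  constructor
  · unfold g s chi
    rcases jacobiSym.trichotomy (y.val : ℤ) p with h | h | h <;> rw [h] <;> split_ifs <;> simp
  · unfold g; rw [mul_pow, sq (s _), s_sq, mul_one]

lemma sum_g {p : ℕ} [NeZero p] : ∑ y : ZMod p, g y = ∑ y : ZMod p, chi y * s y := by
  classical
  have hinv : ∀ y : ZMod p, IsUnit y → IsUnit y⁻¹ ∧ y⁻¹⁻¹ = y ∧ chi y⁻¹ = chi y := by
    intro y hy
    have h1 := ZMod.mul_inv_of_unit y hy
    have h2 : y⁻¹ * y = 1 := by rw [mul_comm]; exact h1
    refine ⟨IsUnit.of_mul_eq_one _ h2, ZMod.inv_eq_of_mul_eq_one _ _ _ h2, ?_⟩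
    have h3 := chi_mul y y⁻¹
    have h4 := chi_sq y
    have h5 := chi_mul (1 : ZMod p) y
    rw [if_pos hy] at h4
    rw [h1] at h3
    rw [one_mul, h3] at h5
    calc chi y⁻¹ = chi y ^ 2 * chi y⁻¹ := by rw [h4, one_mul]
      _ = chi y := by linear_combination -h5
  rw [← Finset.sum_subset (Finset.filter_subset IsUnit univ),
    ← Finset.sum_subset (Finset.filter_subset IsUnit univ)]
  · refine Finset.sum_nbij' (fun y => y⁻¹) (fun y => y⁻¹) ?_ ?_ ?_ ?_ ?_
    · intro y hy; simp only [mem_filter, mem_univ, true_and] at hy ⊢; exact (hinv y hy).1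
    · intro y hy; simp only [mem_filter, mem_univ, true_and] at hy ⊢; exact (hinv y hy).1
    · intro y hy; simp only [mem_filter, mem_univ, true_and] at hy ⊢; exact (hinv y hy).2.1
    · intro y hy; simp only [mem_filter, mem_univ, true_and] at hy ⊢; exact (hinv y hy).2.1
    · intro y hy; simp only [mem_filter, mem_univ, true_and] at hy ⊢
      rw [g, (hinv y hy).2.2]
  · intro y _ hy
    simp only [mem_filter, mem_univ, true_and] at hy
    rw [(chi_eq_zero y).2 hy, zero_mul]
  · intro y _ hy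
    simp only [mem_filter, mem_univ, true_and] at hy
    rw [g, (chi_eq_zero y).2 hy, zero_mul]

noncomputable def x (p : ℕ) : ℝ := ((Nbar p : ℝ) - N p) / (Nbar p + N p)

lemma x_bound (p : ℕ) (hp : 3 < p) (ho : p % 2 = 1) :
    (0 : ℝ) < Nbar p + N p ∧ x p ^ 4 ≤ 28 / (Nat.log 2 p / 2 : ℕ) := by
  haveI : NeZero p := ⟨by omega⟩
  obtain ⟨h1, h2⟩ := N_eq (p := p) (by omega) ho
  have e1 : (Nbar p : ℤ) - N p = ∑ y : ZMod p, chi y * s y := by
    rw [h1, h2, ← sum_g, ← Finset.sum_sub_distrib]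
    refine Finset.sum_congr rfl fun y _ => ?_
    rcases (g_cases y).1 with h | h | h <;> simp [h]
  have e2 : (Nbar p : ℤ) + N p = p.totient := by
    rw [h1, h2, ← sum_chi_sq, ← Finset.sum_add_distrib]
    refine Finset.sum_congr rfl fun y _ => ?_
    rw [← (g_cases y).2]
    rcases (g_cases y).1 with h | h | h <;> simp [h]
  have e1' : (Nbar p : ℝ) - N p = ((∑ y : ZMod p, chi y * s y : ℤ) : ℝ) := by
    rw [← e1]; simp
  have e2' : (Nbar p : ℝ) + N p = p.totient := by exact_mod_cast e2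
  refine ⟨?_, ?_⟩
  · rw [e2']; exact_mod_cast Nat.totient_pos.2 (by omega)
  · rw [x, e1', e2']; exact ratio_bound hp ho

theorem result : Tendsto (fun k : ℕ => (N (2 * k + 1) : ℝ) / Nbar (2 * k + 1)) atTop (𝓝 1) := by
  have hK : Tendsto (fun k : ℕ => Nat.log 2 (2 * k + 1) / 2) atTop atTop := by
    rw [tendsto_atTop_atTop]
    intro b
    refine ⟨2 ^ (2 * b), fun k hk => ?_⟩
    have := Nat.le_log_of_pow_le (b := 2) (x := 2 * b) (y := 2 * k + 1) (by norm_num) (by omega)
    omega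
  have h1 : Tendsto (fun k : ℕ => (28 : ℝ) / (Nat.log 2 (2 * k + 1) / 2 : ℕ)) atTop (𝓝 0) :=
    tendsto_const_nhds.div_atTop (tendsto_natCast_atTop_atTop.comp hK)
  have h2 : Tendsto (fun k : ℕ => x (2 * k + 1) ^ 4) atTop (𝓝 0) := by
    refine squeeze_zero' (Eventually.of_forall fun k => by positivity) ?_ h1
    filter_upwards [eventually_ge_atTop 2] with k hk
    exact (x_bound _ (by omega) (by omega)).2
  have h3 : Tendsto (fun k : ℕ => x (2 * k + 1)) atTop (𝓝 0) := by
    rw [tendsto_zero_iff_abs_tendsto_zero]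
    have := h2.sqrt.sqrt
    simp only [Real.sqrt_zero] at this
    refine this.congr fun k => ?_
    rw [show x (2 * k + 1) ^ 4 = (x (2 * k + 1) ^ 2) ^ 2 by ring, Real.sqrt_sq (sq_nonneg _),
      Real.sqrt_sq_eq_abs]
    rfl
  have h4 : Tendsto (fun k : ℕ => (1 - x (2 * k + 1)) / (1 + x (2 * k + 1))) atTop (𝓝 1) := by
    have := (h3.const_sub 1).div (h3.const_add 1) (by norm_num)
    simp only [sub_zero, add_zero, div_one] at this
    exact this
  refine h4.congr' ?_
  filter_upwards [eventually_ge_atTop 2] with k hk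
  have h5 := (x_bound (2 * k + 1) (by omega) (by omega)).1
  have e1 : 1 - x (2 * k + 1) = 2 * N (2 * k + 1) / (Nbar (2 * k + 1) + N (2 * k + 1)) := by
    rw [x]; field_simp; ring
  have e2 : 1 + x (2 * k + 1) = 2 * Nbar (2 * k + 1) / (Nbar (2 * k + 1) + N (2 * k + 1)) := by
    rw [x]; field_simp; ring
  rw [e1, e2, div_div_div_cancel_right₀ h5.ne', mul_div_mul_left _ _ two_ne_zero]

end Pool.Agent.Results.MP_7c82b6_nt.Limit
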